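import Pool.Agent.Helper13_MT.Pai
import Pool.Agent.MT100B.Stmts

/-!
# The pairing of the hypergeometric system of odd order (module PAI of MT100B)
Adapted from Helper13_MT.
-/

set_option autoImplicit false

namespace Pool.Agent.MT100B.H67

open Finset Polynomial Pool.Agent.MT100B Matrix
open Pool.Agent.MT100 (Dat dv J0 Nsh)
open Pool.Agent.Helper13_MT (sh sh_zero sh_succ j0 j0_identity co co_sum map_dv_mul NN NT_mul mul_NN
  const_of_ode)

noncomputable section

/-- the coefficients of `pp` -/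
def pc (D : Dat) (i a : ℕ) : ℚ := (pp D i).coeff a

lemma pc_zero (D : Dat) (a : ℕ) : pc D 0 a = if a = 0 then 1 else 0 := by
  simp [pc, pp, coeff_one]

lemma pc_succ (D : Dat) (i a : ℕ) : pc D (i + 1) a = sh (pc D i) a + bet D i * pc D i a := by
  unfold pc pp
  rw [prod_range_succ, mul_add, coeff_add, coeff_mul_C]
  rcases a with _ | a
  · simp [sh, mul_comm]
  · simp [sh, mul_comm]

lemma pc_eq_zero (D : Dat) (i a : ℕ) (h : i < a) : pc D i a = 0 := by
  induction i generalizing a with
  | zero => rw [pc_zero, if_neg (by omega)]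
  | succ i ih =>
    rw [pc_succ]
    obtain ⟨a, rfl⟩ : ∃ c, a = c + 1 := ⟨a - 1, by omega⟩
    rw [sh_succ, ih a (by omega), ih (a + 1) (by omega), mul_zero, add_zero]

lemma pc_top (D : Dat) (i : ℕ) : pc D i i = 1 := by
  induction i with
  | zero => simp [pc_zero]
  | succ i ih => rw [pc_succ, sh_succ, ih, pc_eq_zero D i (i + 1) (by omega), mul_zero, add_zero]

lemma bet_add (D : Dat) (i : ℕ) (hi : i < ro D) : bet D i + bet D (ro D - 1 - i) = 1 := by
  have hr : ro D = 2 * D.s + 1 := rfl
  unfold bet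
  rcases lt_trichotomy i D.s with h | h | h
  · have h1 : ¬ (ro D - 1 - i < D.s) := by omega
    have h2 : 2 * D.s - (ro D - 1 - i) < D.s := by omega
    rw [dif_pos h, dif_neg h1, dif_pos h2]
    have h3 : (⟨2 * D.s - (ro D - 1 - i), h2⟩ : Fin D.s) = ⟨i, h⟩ := by
      apply Fin.ext
      show 2 * D.s - (ro D - 1 - i) = i
      omega
    rw [h3]
    ring
  · have h0 : ro D - 1 - i = i := by omega
    have h1 : ¬ (i < D.s) := by omega
    have h2 : ¬ (2 * D.s - i < D.s) := by omega
    rw [h0, dif_neg h1, dif_neg h2]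
    norm_num
  · have h1 : ro D - 1 - i < D.s := by omega
    have h2 : 2 * D.s - i < D.s := by omega
    have h4 : ¬ (i < D.s) := by omega
    rw [dif_neg h4, dif_pos h1, dif_pos h2]
    have h3 : (⟨ro D - 1 - i, h1⟩ : Fin D.s) = ⟨2 * D.s - i, h2⟩ := by
      apply Fin.ext
      show ro D - 1 - i = 2 * D.s - i
      omega
    rw [h3]
    ring

/-- the matrix of the second part of the pairing -/
def mm (D : Dat) (a b : ℕ) : ℚ :=
  ∑ i ∈ range (ro D), (-1) ^ i * pc D i a * pc D (ro D - 1 - i) b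

lemma mm_identity (D : Dat) (a b : ℕ) :
    sh (fun a => mm D a b) a + sh (fun b => mm D a b) b + mm D a b =
      pc D 0 a * pc D (ro D) b + pc D (ro D) a * pc D 0 b := by
  have h1 : sh (fun a => mm D a b) a =
      ∑ i ∈ range (ro D), (-1) ^ i * sh (pc D i) a * pc D (ro D - 1 - i) b := by
    rcases a with _ | a
    · simp
    · simp [mm]
  have h2 : sh (fun b => mm D a b) b =
      ∑ i ∈ range (ro D), (-1) ^ i * pc D i a * sh (pc D (ro D - 1 - i)) b := by
    rcases b with _ | b
    · simp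
    · simp [mm]
  have hr : ro D = 2 * D.s + 1 := rfl
  rw [h1, h2, mm, ← sum_add_distrib, ← sum_add_distrib]
  have h3 : ∀ i ∈ range (ro D),
      ((-1) ^ i * sh (pc D i) a * pc D (ro D - 1 - i) b +
      (-1) ^ i * pc D i a * sh (pc D (ro D - 1 - i)) b) +
      (-1) ^ i * pc D i a * pc D (ro D - 1 - i) b =
      (-1) ^ i * (pc D i a * pc D (ro D - i) b) -
        (-1) ^ (i + 1) * (pc D (i + 1) a * pc D (ro D - (i + 1)) b) := by
    intro i hi
    rw [mem_range] at hi
    have h4 : ro D - i = (ro D - 1 - i) + 1 := by omega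
    have h5 : ro D - (i + 1) = ro D - 1 - i := by omega
    have h6 := bet_add D i hi
    rw [h4, h5, pc_succ D i a, pc_succ D (ro D - 1 - i) b, pow_succ]
    linear_combination -((-1) ^ i * pc D i a * pc D (ro D - 1 - i) b) * h6
  rw [sum_congr rfl h3, sum_range_sub' (fun i => (-1) ^ i * (pc D i a * pc D (ro D - i) b))]
  have h7 : ((-1 : ℚ)) ^ (ro D) = -1 := by
    rw [hr, pow_succ, pow_mul]
    norm_num
  rw [h7]
  simp

lemma mm_symm' (D : Dat) : ∀ n a b : ℕ, a + b = n → mm D a b - mm D b a = 0 := by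
  intro n
  induction n using Nat.strong_induction_on with
  | _ n ih =>
    intro a b hab
    have h1 := mm_identity D a b
    have h2 := mm_identity D b a
    have h3 : sh (fun a => mm D a b) a - sh (fun b' => mm D b b') a = 0 := by
      rcases a with _ | a
      · simp
      · rw [sh_succ, sh_succ]
        exact ih (a + b) (by omega) a b rfl
    have h4 : sh (fun b => mm D a b) b - sh (fun b' => mm D b' a) b = 0 := by
      rcases b with _ | b
      · simp
      · rw [sh_succ, sh_succ]
        exact ih (a + b) (by omega) a b rfl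
    linear_combination h1 - h2 - h3 - h4

lemma mm_symm (D : Dat) (a b : ℕ) : mm D a b = mm D b a := by
  have := mm_symm' D (a + b) a b rfl
  linarith

lemma mm_top (D : Dat) (b : ℕ) : mm D (ro D - 1) b = if b = 0 then 1 else 0 := by
  have hr : ro D = 2 * D.s + 1 := rfl
  unfold mm
  obtain ⟨t, ht⟩ : ∃ t, ro D = t + 1 := ⟨ro D - 1, by omega⟩
  rw [ht, sum_range_succ]
  have h1 : ∀ i ∈ range t, (-1) ^ i * pc D i (t + 1 - 1) * pc D (t + 1 - 1 - i) b = 0 := by
    intro i hi
    rw [mem_range] at hi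
    rw [pc_eq_zero D i (t + 1 - 1) (by omega)]
    ring
  rw [sum_eq_zero h1, zero_add]
  have h2 : t + 1 - 1 - t = 0 := by omega
  have h3 : t + 1 - 1 = t := by omega
  have h4 : ((-1 : ℚ)) ^ t = 1 := by
    have : Even t := ⟨D.s, by omega⟩
    exact this.neg_one_pow
  rw [h2, h3, pc_top, pc_zero, h4]
  split_ifs <;> ring

lemma pp_r (D : Dat) : pp D (ro D) = cf D := by
  unfold pp cf Pool.Agent.MT100.cf
  have hr : ro D = D.s + (D.s + 1) := by
    show 2 * D.s + 1 = D.s + (D.s + 1)
    ring
  rw [hr, prod_range_add, prod_mul_distrib, ← Fin.prod_univ_eq_prod_range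
    (fun j => (X + C (bet D j) : ℚ[X])) D.s, prod_range_succ', ← Fin.prod_univ_eq_prod_range
    (fun j => (X + C (bet D (D.s + (j + 1))) : ℚ[X])) D.s]
  have h0 : ∏ i : Fin D.s, (X + C (bet D (i : ℕ)) : ℚ[X]) = ∏ i : Fin D.s, (X + C (D.al i)) := by
    refine prod_congr rfl fun i _ => ?_
    unfold bet
    rw [dif_pos i.2]
  have h1 : (X + C (bet D (D.s + 0)) : ℚ[X]) = X + C (1 / 2) := by
    unfold bet
    rw [dif_neg (by omega), dif_neg (by omega)]
  have h2 : ∏ i : Fin D.s, (X + C (bet D (D.s + ((i : ℕ) + 1))) : ℚ[X]) =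
      ∏ i : Fin D.s, (X + C (1 - D.al i)) := by
    rw [← Equiv.prod_comp Fin.revPerm]
    refine prod_congr rfl fun i _ => ?_
    have hi := i.2
    have h0 : ((Fin.revPerm i : Fin D.s) : ℕ) = D.s - 1 - i := by
      rw [Fin.revPerm_apply, Fin.val_rev]
      omega
    rw [h0]
    unfold bet
    have h1 : ¬ (D.s + (D.s - 1 - (i : ℕ) + 1) < D.s) := by omega
    have h2 : 2 * D.s - (D.s + (D.s - 1 - (i : ℕ) + 1)) < D.s := by omega
    rw [dif_neg h1, dif_pos h2]
    have h3 : (⟨2 * D.s - (D.s + (D.s - 1 - (i : ℕ) + 1)), h2⟩ : Fin D.s) = i := by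
      apply Fin.ext
      show 2 * D.s - (D.s + (D.s - 1 - (i : ℕ) + 1)) = i
      omega
    rw [h3]
  rw [h0, h1, h2, mul_assoc]

/-- the pairing -/
def jj (D : Dat) (a b : ℕ) : ℚ[X] := C (j0 (ro D) a b) - C (D.lam * mm D a b) * X

lemma Jm_eq (D : Dat) (a b : Fin (ro D)) : Jm D a b = jj D a b := rfl

lemma jj_symm (D : Dat) (a b : ℕ) : jj D a b = jj D b a := by
  unfold jj
  have h1 : j0 (ro D) a b = j0 (ro D) b a := by
    unfold j0
    by_cases h : a + b + 1 = ro D
    · rw [if_pos h, if_pos (by omega)]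
      have hr : ro D = 2 * D.s + 1 := rfl
      rcases Nat.even_or_odd a with ha | ha
      · have hb : Even b := by
          rw [Nat.even_iff] at ha ⊢
          omega
        rw [ha.neg_one_pow, hb.neg_one_pow]
      · have hb : Odd b := by
          rw [Nat.odd_iff] at ha ⊢
          omega
        rw [ha.neg_one_pow, hb.neg_one_pow]
    · rw [if_neg h, if_neg (by omega)]
  rw [h1, mm_symm D a b]

lemma jj_top (D : Dat) (b : ℕ) :
    jj D (ro D - 1) b = if b = 0 then (1 - C D.lam * X) else 0 := by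
  have hr : ro D = 2 * D.s + 1 := rfl
  unfold jj
  rw [mm_top]
  unfold j0
  by_cases hb : b = 0
  · subst hb
    rw [if_pos (by omega), if_pos rfl, if_pos rfl]
    have h4 : ((-1 : ℚ)) ^ (ro D - 1) = 1 := by
      have : Even (ro D - 1) := ⟨D.s, by omega⟩
      exact this.neg_one_pow
    rw [h4]
    simp only [map_one, mul_one]
  · rw [if_neg (by omega), if_neg hb, if_neg hb]
    simp

lemma jj_top' (D : Dat) (a : ℕ) :
    jj D a (ro D - 1) = if a = 0 then (1 - C D.lam * X) else 0 := by
  rw [jj_symm, jj_top]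

lemma jj_identity (D : Dat) (a b : ℕ) (ha : a < ro D) (hb : b < ro D) :
    sh (fun a => jj D a b) a + sh (fun b => jj D a b) b - C (D.lam * mm D a b) * X +
      C D.lam * X * (C (pc D (ro D) b) * (if a = 0 then 1 else 0) +
        C (pc D (ro D) a) * (if b = 0 then 1 else 0)) = 0 := by
  have h1 : sh (fun a => jj D a b) a = C (sh (fun a => j0 (ro D) a b) a) -
      C (D.lam * sh (fun a => mm D a b) a) * X := by
    rcases a with _ | a
    · simp
    · simp [jj]
  have h2 : sh (fun b => jj D a b) b = C (sh (fun b => j0 (ro D) a b) b) -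
      C (D.lam * sh (fun b => mm D a b) b) * X := by
    rcases b with _ | b
    · simp
    · simp [jj]
  have h3 := congrArg (C : ℚ → ℚ[X]) (mm_identity D a b)
  have h4 := congrArg (C : ℚ → ℚ[X]) (j0_identity (ro D) a b ha hb)
  have h5 : (C (pc D 0 a) : ℚ[X]) = if a = 0 then 1 else 0 := by
    rw [pc_zero]
    split_ifs <;> simp
  have h6 : (C (pc D 0 b) : ℚ[X]) = if b = 0 then 1 else 0 := by
    rw [pc_zero]
    split_ifs <;> simp
  rw [← h5, ← h6, h1, h2]
  simp only [map_add, map_mul, map_zero] at h3 h4 ⊢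
  linear_combination h4 - C D.lam * X * h3

lemma A0_mul (D : Dat) (a b : Fin (ro D)) :
    ∑ c : Fin (ro D), A0 D c a * Jm D c b =
      (1 - C D.lam * X) * sh (fun a => jj D a b) a +
        C (D.lam * pc D (ro D) a) * X * jj D (ro D - 1) b := by
  have hr : ro D = 2 * D.s + 1 := rfl
  have hs := D.two_le
  have h0 : (cf D).coeff a = pc D (ro D) a := by rw [pc, pp_r]
  unfold A0
  simp only [add_mul, sum_add_distrib, Jm_eq]
  congr 1
  · have ha := a.2
    by_cases h : (a : ℕ) = 0
    · rw [h, sh_zero, mul_zero]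
      refine sum_eq_zero fun c _ => ?_
      rw [if_neg (by omega), zero_mul]
    · obtain ⟨t, ht⟩ : ∃ t, (a : ℕ) = t + 1 := ⟨(a : ℕ) - 1, by omega⟩
      rw [ht, sh_succ]
      rw [sum_eq_single (⟨t, by omega⟩ : Fin (ro D))]
      · rw [if_pos rfl]
      · intro c _ hc
        rw [if_neg, zero_mul]
        intro h1
        apply hc
        apply Fin.ext
        show (c : ℕ) = t
        omega
      · intro h1
        exact absurd (mem_univ _) h1
  · rw [sum_eq_single (⟨ro D - 1, by omega⟩ : Fin (ro D))]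
    · rw [if_pos (by show ro D - 1 + 1 = ro D; omega), h0]
    · intro c _ hc
      have hc2 := c.2
      rw [if_neg, zero_mul]
      intro h1
      apply hc
      apply Fin.ext
      show (c : ℕ) = ro D - 1
      omega
    · intro h1
      exact absurd (mem_univ _) h1

lemma mul_A0 (D : Dat) (a b : Fin (ro D)) :
    ∑ c : Fin (ro D), Jm D a c * A0 D c b =
      (1 - C D.lam * X) * sh (fun b => jj D a b) b +
        C (D.lam * pc D (ro D) b) * X * jj D a (ro D - 1) := by
  have h1 := A0_mul D b a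
  have h2 : ∑ c : Fin (ro D), Jm D a c * A0 D c b = ∑ c : Fin (ro D), A0 D c b * Jm D c a := by
    refine sum_congr rfl fun c _ => ?_
    rw [Jm_eq, Jm_eq, jj_symm D a c]
    ring
  rw [h2, h1, jj_symm D a (ro D - 1)]
  have h3 : sh (fun b => jj D a b) b = sh (fun a' => jj D a' a) b := by
    rcases Nat.eq_zero_or_pos (b : ℕ) with h | h
    · rw [h, sh_zero, sh_zero]
    · obtain ⟨t, ht⟩ : ∃ t, (b : ℕ) = t + 1 := ⟨(b : ℕ) - 1, by omega⟩
      rw [ht, sh_succ, sh_succ, jj_symm]
  rw [h3]

lemma poly_identity (D : Dat) (a b : Fin (ro D)) :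
    ∑ c : Fin (ro D), A0 D c a * Jm D c b +
      ((1 - C D.lam * X) * X) * derivative (Jm D a b) +
      ∑ c : Fin (ro D), Jm D a c * A0 D c b = 0 := by
  rw [A0_mul, mul_A0, jj_top, jj_top']
  have h1 : derivative (Jm D a b) = - C (D.lam * mm D a b) := by
    rw [Jm_eq]
    unfold jj
    simp
  rw [h1]
  have h2 := jj_identity D a b a.2 b.2
  have h3 : (if (b : ℕ) = 0 then (1 - C D.lam * X) else 0 : ℚ[X]) =
      (1 - C D.lam * X) * if (b : ℕ) = 0 then 1 else 0 := by
    split_ifs <;> simp
  have h4 : (if (a : ℕ) = 0 then (1 - C D.lam * X) else 0 : ℚ[X]) =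
      (1 - C D.lam * X) * if (a : ℕ) = 0 then 1 else 0 := by
    split_ifs <;> simp
  rw [h3, h4]
  simp only [C_mul] at h2 ⊢
  linear_combination (1 - C D.lam * X) * h2

lemma series_identity (D : Dat) :
    ((A0 D).map co)ᵀ * (Jm D).map co + (co (1 - C D.lam * X) * PowerSeries.X) •
      ((Jm D).map co).map dv + (Jm D).map co * (A0 D).map co = 0 := by
  ext1 a b
  have h := congrArg co (poly_identity D a b)
  simp only [Matrix.add_apply, Matrix.mul_apply, Matrix.transpose_apply, Matrix.map_apply,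
    Matrix.smul_apply, Matrix.zero_apply, smul_eq_mul]
  have h1 : dv (co (Jm D a b)) = co (derivative (Jm D a b)) := by
    show PowerSeries.derivative ℚ _ = _
    exact PowerSeries.derivative_coe _
  rw [h1]
  have h2 : co ((1 - C D.lam * X) * X * derivative (Jm D a b)) =
      co (1 - C D.lam * X) * PowerSeries.X * co (derivative (Jm D a b)) := by
    show ((((1 - C D.lam * X) * X * derivative (Jm D a b) : ℚ[X])) : PowerSeries ℚ) = _
    rw [Polynomial.coe_mul, Polynomial.coe_mul, Polynomial.coe_X]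
  have h3 : co (∑ c : Fin (ro D), A0 D c a * Jm D c b) =
      ∑ c : Fin (ro D), co (A0 D c a) * co (Jm D c b) := by
    rw [co_sum]
    exact sum_congr rfl fun c _ => Polynomial.coe_mul _ _
  have h4 : co (∑ c : Fin (ro D), Jm D a c * A0 D c b) =
      ∑ c : Fin (ro D), co (Jm D a c) * co (A0 D c b) := by
    rw [co_sum]
    exact sum_congr rfl fun c _ => Polynomial.coe_mul _ _
  rw [← h2, ← h3, ← h4]
  have h5 : ∀ p q : ℚ[X], co (p + q) = co p + co q := fun p q => Polynomial.coe_add _ _
  rw [← h5, ← h5, h]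
  exact Polynomial.coe_zero

lemma phi_ode (hyp : MT100B.HypStmt) (D : Dat) :
    (PowerSeries.X : PowerSeries ℚ) • ((Hyp D)ᵀ * (Jm D).map co * Hyp D).map dv =
      -((NN (ro D))ᵀ * ((Hyp D)ᵀ * (Jm D).map co * Hyp D) +
        ((Hyp D)ᵀ * (Jm D).map co * Hyp D) * NN (ro D)) := by
  obtain ⟨_, ode⟩ := hyp D
  set H := Hyp D with hH
  set J := (Jm D).map co with hJ
  set A := (A0 D).map co with hA
  set N := NN (ro D) with hN
  set q : PowerSeries ℚ := co (1 - C D.lam * X) with hq
  have ode' : (q * PowerSeries.X) • H.map dv = A * H - q • (H * N) := ode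
  have odeT : (q * PowerSeries.X) • (Hᵀ).map dv = Hᵀ * Aᵀ - q • (Nᵀ * Hᵀ) := by
    have h1 := congrArg Matrix.transpose ode'
    rw [Matrix.transpose_smul, Matrix.transpose_sub, Matrix.transpose_smul, Matrix.transpose_mul,
      Matrix.transpose_mul] at h1
    exact h1
  have hid : Aᵀ * J + (q * PowerSeries.X) • J.map dv + J * A = 0 := series_identity D
  have hq0 : q ≠ 0 := by
    intro h
    have h1 := congrArg (PowerSeries.coeff 0) h
    rw [hq] at h1
    simp [co] at h1
  have hmain : q • ((PowerSeries.X : PowerSeries ℚ) • (Hᵀ * J * H).map dv) =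
      q • (-(Nᵀ * (Hᵀ * J * H) + (Hᵀ * J * H) * N)) := by
    rw [map_dv_mul, map_dv_mul, smul_smul]
    have h1 : (q * PowerSeries.X) • ((Hᵀ.map dv * J + Hᵀ * J.map dv) * H + Hᵀ * J * H.map dv) =
        ((q * PowerSeries.X) • Hᵀ.map dv) * J * H +
          Hᵀ * ((q * PowerSeries.X) • J.map dv) * H +
          Hᵀ * J * ((q * PowerSeries.X) • H.map dv) := by
      simp only [smul_add, Matrix.add_mul, Matrix.smul_mul, Matrix.mul_smul]
    rw [h1, odeT, ode']
    have h2 : (q * PowerSeries.X) • J.map dv = -(Aᵀ * J + J * A) := by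
      have h3 : Aᵀ * J + (q * PowerSeries.X) • J.map dv + J * A -
          (Aᵀ * J + J * A) = 0 - (Aᵀ * J + J * A) := by rw [hid]
      rw [zero_sub] at h3
      rw [← h3]
      abel
    rw [h2]
    simp only [Matrix.sub_mul, Matrix.mul_sub, Matrix.mul_neg, Matrix.neg_mul, Matrix.mul_add,
      Matrix.add_mul, Matrix.smul_mul, Matrix.mul_smul, Matrix.mul_assoc, smul_neg, smul_add]
    abel
  ext1 a b
  have h2 := congrFun (congrFun hmain a) b
  rw [Matrix.smul_apply, Matrix.smul_apply _ (-_), smul_eq_mul, smul_eq_mul] at h2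
  exact mul_left_cancel₀ hq0 h2

theorem pai (hyp : MT100B.HypStmt) : MT100B.PaiStmt := by
  intro D
  refine ⟨?_, ?_⟩
  · ext1 a b
    rw [Matrix.transpose_apply, Jm_eq, Jm_eq, jj_symm]
  · obtain ⟨hone, _⟩ := hyp D
    have hode := phi_ode hyp D
    ext1 a b
    show ((Hyp D)ᵀ * (Jm D).map co * Hyp D) a b = PowerSeries.C (J0 (ro D) a b)
    ext k
    rw [PowerSeries.coeff_C]
    by_cases hk : k = 0
    · subst hk
      rw [if_pos rfl]
      have h1 : ∀ M N : Matrix (Fin (ro D)) (Fin (ro D)) (PowerSeries ℚ),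
          (M * N).map (PowerSeries.constantCoeff (R := ℚ)) =
            M.map (PowerSeries.constantCoeff (R := ℚ)) *
              N.map (PowerSeries.constantCoeff (R := ℚ)) := fun M N =>
        Matrix.map_mul
      have h2 : (Hyp D).map (PowerSeries.constantCoeff (R := ℚ)) = 1 := by
        ext1 i j
        rw [Matrix.map_apply, hone, Matrix.one_apply]
      have h3 : ((Hyp D)ᵀ * (Jm D).map co * Hyp D).map (PowerSeries.constantCoeff (R := ℚ)) =
          ((Jm D).map co).map (PowerSeries.constantCoeff (R := ℚ)) := by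
        rw [h1, h1, Matrix.transpose_map, h2, Matrix.transpose_one, Matrix.one_mul,
          Matrix.mul_one]
      have h4 := congrFun (congrFun h3 a) b
      rw [Matrix.map_apply, Matrix.map_apply, Matrix.map_apply] at h4
      rw [PowerSeries.coeff_zero_eq_constantCoeff_apply, h4]
      rw [← PowerSeries.coeff_zero_eq_constantCoeff_apply]
      show PowerSeries.coeff 0 ((Jm D a b : ℚ[X]) : PowerSeries ℚ) = _
      rw [Polynomial.coeff_coe]
      unfold Jm
      simp
    · rw [if_neg hk]
      exact const_of_ode (ro D) _ hode k hk _ a b rfl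

end

end Pool.Agent.MT100B.H67
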